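import Pool.Agent.T9h97.RB.Spec2

/-!
# Piece (J) of `T9h97/RB/Spec2.lean`: the crossing lemma
-/

set_option autoImplicit false

open Finset

namespace Pool.Agent.T9h8.RB

open Pool.Agent.T9h97.RB

theorem slope (al : ℕ → ℤ) (h : ℕ) (hal : ∀ i, |al (i + 1) - al i| ≤ (h : ℤ)) (i m : ℕ) :
    al (i + m) - al i ≤ (h : ℤ) * m := by
  induction m with
  | zero => simp
  | succ m ih =>
    have h1 := (abs_le.1 (hal (i + m))).2
    have h2 : i + (m + 1) = i + m + 1 := by omega
    rw [h2]
    push_cast
    nlinarith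

theorem window (l : ℕ) (al : ℕ → ℤ) (B : ℕ → ℕ) (D kap h z i0 : ℕ)
    (hal : ∀ i, |al (i + 1) - al i| ≤ (h : ℤ))
    (hB : ∀ i : ℕ, (z : ℤ) + kap < al i → al i < 2 * (D : ℤ) - z → z < B i)
    (low : al i0 ≤ (z : ℤ) + kap) (high : 2 * (D : ℤ) - z ≤ al (i0 + l))
    (hz : 2 * z + kap < 2 * D) :
    2 * (D : ℤ) - 2 * z - kap - h ≤
      (h : ℤ) * (((Ico i0 (i0 + l)).filter fun i => z < B i).card : ℕ) := by
  classical
  obtain ⟨i1, hi1⟩ : ∃ i1, i1 = Nat.findGreatest (fun i => al i ≤ (z : ℤ) + kap) (i0 + l) :=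
    ⟨_, rfl⟩
  have h1 : al i1 ≤ (z : ℤ) + kap := by
    rw [hi1]
    exact Nat.findGreatest_spec (P := fun i => al i ≤ (z : ℤ) + kap) (Nat.le_add_right i0 l) low
  have h2 : i0 ≤ i1 := by
    rw [hi1]
    exact Nat.le_findGreatest (Nat.le_add_right i0 l) low
  have h3 : i1 ≤ i0 + l := by
    rw [hi1]
    exact Nat.findGreatest_le _
  have h4 : ∀ k, i1 < k → k ≤ i0 + l → ¬ (al k ≤ (z : ℤ) + kap) := by
    intro k hk1 hk2
    rw [hi1] at hk1
    exact Nat.findGreatest_is_greatest hk1 hk2
  have h5 : i1 < i0 + l := by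
    rcases Nat.lt_or_ge i1 (i0 + l) with h | h
    · exact h
    · exfalso
      have h6 : i1 = i0 + l := le_antisymm h3 h
      rw [h6] at h1
      omega
  have hex : ∃ i, i1 < i ∧ 2 * (D : ℤ) - z ≤ al i := ⟨i0 + l, h5, high⟩
  obtain ⟨i2, hi2⟩ : ∃ i2, i2 = Nat.find hex := ⟨_, rfl⟩
  have h6 : i1 < i2 ∧ 2 * (D : ℤ) - z ≤ al i2 := by
    rw [hi2]
    exact Nat.find_spec hex
  have h7 : i2 ≤ i0 + l := by
    rw [hi2]
    exact Nat.find_min' hex ⟨h5, high⟩
  have h8 : ∀ k, i1 < k → k < i2 → al k < 2 * (D : ℤ) - z := by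
    intro k hk1 hk2
    rw [hi2] at hk2
    have h9 := Nat.find_min hex hk2
    by_contra hcon
    push Not at hcon
    exact h9 ⟨hk1, hcon⟩
  have h9 : Ioo i1 i2 ⊆ (Ico i0 (i0 + l)).filter fun i => z < B i := by
    intro k hk
    obtain ⟨hk1, hk2⟩ := mem_Ioo.1 hk
    refine mem_filter.2 ⟨mem_Ico.2 ⟨by omega, by omega⟩, hB k ?_ (h8 k hk1 hk2)⟩
    have := h4 k hk1 (by omega)
    push Not at this
    exact this
  have h10 := card_le_card h9
  rw [Nat.card_Ioo] at h10
  obtain ⟨c, hc⟩ : ∃ c, c = ((Ico i0 (i0 + l)).filter fun i => z < B i).card := ⟨_, rfl⟩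
  rw [← hc] at h10 ⊢
  have h11 := slope al h hal i1 (i2 - i1)
  have h12 : i1 + (i2 - i1) = i2 := by omega
  rw [h12] at h11
  have h13 : ((i2 - i1 : ℕ) : ℤ) ≤ (c : ℤ) + 1 := by omega
  have h14 : (h : ℤ) * ((i2 - i1 : ℕ) : ℤ) ≤ (h : ℤ) * ((c : ℤ) + 1) :=
    mul_le_mul_of_nonneg_left h13 (by positivity)
  linarith [h6.2]

theorem seq : S_Seq := by
  classical
  intro l al B D kap h hl hh hrefl hal hBper hB hlh p hp
  have hper : ∀ z : ℕ, Function.Periodic (fun i => z < B i) l := by
    intro z i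
    simp only
    rw [hBper]
  have key : ∀ z, z < p → 2 * (p : ℤ) - 2 * z - 1 ≤
      (h : ℤ) * (((range l).filter fun i => z < B i).card : ℕ) := by
    intro z hz
    by_cases hall : ∀ i < l, z < B i
    · have h1 : (range l).filter (fun i => z < B i) = range l :=
        filter_true_of_mem fun i hi => hall i (mem_range.1 hi)
      rw [h1, card_range]
      have h2 : (2 * D : ℤ) ≤ (l : ℤ) * h := by exact_mod_cast hlh
      have h3 : (2 * p + kap + h : ℤ) ≤ 2 * D := by exact_mod_cast hp
      have h4 : (0 : ℤ) ≤ kap := by positivity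
      have h5 : (0 : ℤ) ≤ h := by positivity
      have h6 : (0 : ℤ) ≤ z := by positivity
      linarith
    · push Not at hall
      obtain ⟨i0, hi0, hB0⟩ := hall
      have hwin : ((Ico i0 (i0 + l)).filter fun i => z < B i).card =
          ((range l).filter fun i => z < B i).card := by
        rw [Nat.filter_Ico_card_eq_of_periodic i0 l (fun i => z < B i) (hper z),
          Nat.count_eq_card_filter_range]
      rw [← hwin]
      have hz2 : 2 * z + kap < 2 * D := by omega
      have hor : al i0 ≤ (z : ℤ) + kap ∨ 2 * (D : ℤ) - z ≤ al i0 := by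
        by_contra hcon
        push Not at hcon
        have := hB i0 z hcon.1 hcon.2
        omega
      have h3 : (2 * p + kap + h : ℤ) ≤ 2 * D := by exact_mod_cast hp
      rcases hor with hlow | hhigh
      · have h1 := window l al B D kap h z i0 hal (fun i => hB i z) hlow
          (by rw [hrefl i0]; linarith) hz2
        linarith
      · have h1 := window l (fun i => 2 * (D : ℤ) + kap - al i) B D kap h z i0
          (by
            intro i
            have h2 : 2 * (D : ℤ) + kap - al (i + 1) - (2 * (D : ℤ) + kap - al i) =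
                -(al (i + 1) - al i) := by ring
            rw [h2, abs_neg]
            exact hal i)
          (fun i g1 g2 => hB i z (by linarith) (by linarith))
          (by linarith) (by rw [hrefl i0]; linarith) hz2
        linarith
  -- double counting
  have hdc : ∑ z ∈ range p, ((range l).filter fun i => z < B i).card ≤ ∑ i ∈ range l, B i := by
    have h1 : ∑ z ∈ range p, ((range l).filter fun i => z < B i).card =
        ∑ i ∈ range l, ((range p).filter fun z => z < B i).card := by
      simp only [card_filter]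
      exact sum_comm
    rw [h1]
    refine sum_le_sum fun i _ => ?_
    have h2 : (range p).filter (fun z => z < B i) ⊆ range (B i) := fun z hz =>
      mem_range.2 (mem_filter.1 hz).2
    have h3 := card_le_card h2
    rwa [card_range] at h3
  have hsum : ∀ m, m ≤ p → ∑ z ∈ range m, (2 * (p : ℤ) - 2 * z - 1) = 2 * p * m - m * m := by
    intro m
    induction m with
    | zero => intro _; simp
    | succ m ih =>
      intro hm
      rw [sum_range_succ, ih (by omega)]
      push_cast
      ring
  have h1 : ((p * p : ℕ) : ℤ) ≤ ((h * ∑ i ∈ range l, B i : ℕ) : ℤ) := by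
    calc ((p * p : ℕ) : ℤ) = ∑ z ∈ range p, (2 * (p : ℤ) - 2 * z - 1) := by
          rw [hsum p le_rfl]
          push_cast
          ring
      _ ≤ ∑ z ∈ range p, (h : ℤ) * (((range l).filter fun i => z < B i).card : ℕ) :=
          sum_le_sum fun z hz => key z (mem_range.1 hz)
      _ = (h : ℤ) * ((∑ z ∈ range p, ((range l).filter fun i => z < B i).card : ℕ) : ℤ) := by
          rw [← mul_sum]
          push_cast
          rfl
      _ ≤ (h : ℤ) * ((∑ i ∈ range l, B i : ℕ) : ℤ) :=
          mul_le_mul_of_nonneg_left (by exact_mod_cast hdc) (by positivity)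
      _ = _ := by push_cast; rfl
  exact_mod_cast h1

end Pool.Agent.T9h8.RB
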